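import Pool.Agent.U845.XM.Stm

/-!
# Project XM, package NRM: a norm equation at a prime dividing `c` exactly once
-/

set_option autoImplicit false
set_option linter.unusedVariables false

namespace Pool.Agent.U928.XM.NRM

open Pool.Agent.U115.TP (toZMod_eq_zero dvd_int)

variable {l : ℕ} [hl : Fact l.Prime]

theorem sq_dvd {x : ℤ_[l]} (h : (l : ℤ_[l]) ∣ x ^ 2) : (l : ℤ_[l]) ∣ x :=
  (PadicInt.prime_p (p := l)).dvd_of_dvd_pow h

theorem isSq_of {a : ℤ} {x y : ZMod l} (h : x ^ 2 = a * y ^ 2) (hy : y ≠ 0) :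
    IsSquare (a : ZMod l) := by
  refine ⟨x / y, ?_⟩
  field_simp
  rw [← h]

theorem core (d c c1 : ℤ) (hc : c = l * c1) (hc1 : ¬ (l : ℤ) ∣ c1) (W N T : ℤ_[l])
    (hprim : ¬ ((l : ℤ_[l]) ∣ W ∧ (l : ℤ_[l]) ∣ N ∧ (l : ℤ_[l]) ∣ T))
    (h : W ^ 2 = d * (N ^ 2 + c * T ^ 2)) :
    (¬ (l : ℤ) ∣ d → IsSquare (d : ZMod l)) ∧
    ∀ d1 : ℤ, d = l * d1 → ¬ (l : ℤ) ∣ d1 → IsSquare ((d1 * c1 : ℤ) : ZMod l) := by
  have hp := PadicInt.prime_p (p := l)
  have hl0 : (l : ℤ_[l]) ≠ 0 := hp.ne_zero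
  subst hc
  push_cast at h
  constructor
  · intro hd
    by_cases hN : (l : ℤ_[l]) ∣ N
    · exfalso
      have hW : (l : ℤ_[l]) ∣ W := by
        apply sq_dvd
        rw [h]
        apply Dvd.dvd.mul_left
        apply dvd_add
        · exact Dvd.dvd.pow hN two_ne_zero
        · rw [mul_assoc]; exact Dvd.dvd.mul_right (dvd_refl _) _
      obtain ⟨N1, hN1⟩ := hN
      obtain ⟨W1, hW1⟩ := hW
      have h1 : (l : ℤ_[l]) * W1 ^ 2 = d * (l * N1 ^ 2 + c1 * T ^ 2) := by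
        apply mul_left_cancel₀ hl0
        rw [hN1, hW1] at h
        linear_combination h
      have h2 : (l : ℤ_[l]) ∣ (d * c1 : ℤ_[l]) * T ^ 2 := by
        refine ⟨W1 ^ 2 - d * N1 ^ 2, ?_⟩
        linear_combination -h1
      rcases hp.dvd_or_dvd h2 with h3 | h3
      · rcases hp.dvd_or_dvd h3 with h4 | h4
        · exact hd (dvd_int.1 h4)
        · exact hc1 (dvd_int.1 h4)
      · exact hprim ⟨⟨W1, hW1⟩, ⟨N1, hN1⟩, sq_dvd h3⟩
    · have h1 := congrArg (PadicInt.toZMod (p := l)) h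
      simp only [map_pow, map_mul, map_add, map_intCast, map_natCast, ZMod.natCast_self, zero_mul,
        add_zero] at h1
      exact isSq_of h1 (fun h2 => hN (toZMod_eq_zero.1 h2))
  · intro d1 hd1 hd1'
    subst hd1
    push_cast at h
    have hW : (l : ℤ_[l]) ∣ W := by
      apply sq_dvd
      rw [h, mul_assoc]
      exact Dvd.dvd.mul_right (dvd_refl _) _
    obtain ⟨W1, hW1⟩ := hW
    have h1 : (l : ℤ_[l]) * W1 ^ 2 = d1 * (N ^ 2 + l * c1 * T ^ 2) := by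
      apply mul_left_cancel₀ hl0
      rw [hW1] at h
      linear_combination h
    have hN : (l : ℤ_[l]) ∣ N := by
      have h2 : (l : ℤ_[l]) ∣ (d1 : ℤ_[l]) * N ^ 2 := by
        refine ⟨W1 ^ 2 - d1 * c1 * T ^ 2, ?_⟩
        linear_combination -h1
      rcases hp.dvd_or_dvd h2 with h3 | h3
      · exact absurd (dvd_int.1 h3) hd1'
      · exact sq_dvd h3
    obtain ⟨N1, hN1⟩ := hN
    have h2 : W1 ^ 2 = d1 * (l * N1 ^ 2 + c1 * T ^ 2) := by
      apply mul_left_cancel₀ hl0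
      rw [hN1] at h1
      linear_combination h1
    have hT : ¬ (l : ℤ_[l]) ∣ T := fun hT => hprim ⟨⟨W1, hW1⟩, ⟨N1, hN1⟩, hT⟩
    have h3 := congrArg (PadicInt.toZMod (p := l)) h2
    simp only [map_pow, map_mul, map_add, map_intCast, map_natCast, ZMod.natCast_self, zero_mul,
        zero_add] at h3
    refine isSq_of (x := PadicInt.toZMod W1) (y := PadicInt.toZMod T) ?_
      (fun h4 => hT (toZMod_eq_zero.1 h4))
    push_cast
    rw [h3]
    ring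

theorem step (d c c1 : ℤ) (hc : c = l * c1) (hc1 : ¬ (l : ℤ) ∣ c1) (k : ℕ) :
    ∀ W N T : ℤ_[l], ¬ ((l : ℤ_[l]) ^ k ∣ W ∧ (l : ℤ_[l]) ^ k ∣ N ∧ (l : ℤ_[l]) ^ k ∣ T) →
    W ^ 2 = d * (N ^ 2 + c * T ^ 2) →
    (¬ (l : ℤ) ∣ d → IsSquare (d : ZMod l)) ∧
    ∀ d1 : ℤ, d = l * d1 → ¬ (l : ℤ) ∣ d1 → IsSquare ((d1 * c1 : ℤ) : ZMod l) := by
  have hp := PadicInt.prime_p (p := l)
  have hl0 : (l : ℤ_[l]) ≠ 0 := hp.ne_zero
  induction k with
  | zero => intro W N T h; exact absurd ⟨by simp, by simp, by simp⟩ h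
  | succ k ih =>
    intro W N T h1 h2
    by_cases hprim : (l : ℤ_[l]) ∣ W ∧ (l : ℤ_[l]) ∣ N ∧ (l : ℤ_[l]) ∣ T
    · obtain ⟨⟨W1, hW⟩, ⟨N1, hN⟩, ⟨T1, hT⟩⟩ := hprim
      refine ih W1 N1 T1 ?_ ?_
      · rintro ⟨a, b, c⟩
        apply h1
        rw [hW, hN, hT, pow_succ']
        exact ⟨mul_dvd_mul_left _ a, mul_dvd_mul_left _ b, mul_dvd_mul_left _ c⟩
      · apply mul_left_cancel₀ hl0
        apply mul_left_cancel₀ hl0
        rw [hW, hN, hT] at h2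
        linear_combination h2
    · exact core d c c1 hc hc1 W N T hprim h2

theorem exists_not_dvd {x : ℤ_[l]} (hx : x ≠ 0) : ∃ k : ℕ, ¬ (l : ℤ_[l]) ^ k ∣ x := by
  have hp := PadicInt.prime_p (p := l)
  obtain ⟨k, hk⟩ := FiniteMultiplicity.of_prime_left hp hx
  exact ⟨k + 1, hk⟩

theorem t_NRM : Pool.Agent.U845.XM.S_NRM := by
  intro l hl d c c1 hc hc1 W N T h0 h
  rcases h0 with h0 | h0 | h0
  · obtain ⟨k, hk⟩ := exists_not_dvd h0
    exact step d c c1 hc hc1 k W N T (fun h => hk h.1) h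
  · obtain ⟨k, hk⟩ := exists_not_dvd h0
    exact step d c c1 hc hc1 k W N T (fun h => hk h.2.1) h
  · obtain ⟨k, hk⟩ := exists_not_dvd h0
    exact step d c c1 hc hc1 k W N T (fun h => hk h.2.2) h

end Pool.Agent.U928.XM.NRM
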